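import Pool.Agent.N576.MX3.D

/-!
# Project MX3 (helper576), part SCHW: Schwarz lemma with approximate multiple zeros
-/

set_option autoImplicit false

namespace Pool.Agent.N952.MX3

open Finset Pool.Agent.N576.MX3 MeasureTheory

/-- derivative chain -/
def Ch (f : ℕ → ℝ → ℝ) : Prop := ∀ k x, HasDerivAt (f k) (f (k + 1) x) x

theorem Ch.cont {f : ℕ → ℝ → ℝ} (h : Ch f) (k : ℕ) : Continuous (f k) :=
  continuous_iff_continuousAt.2 fun x => (h k x).continuousAt

/-- divided difference and its derivatives -/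
noncomputable def dd (f : ℕ → ℝ → ℝ) (a : ℝ) (k : ℕ) (x : ℝ) : ℝ :=
  ∫ u in (0 : ℝ)..1, u ^ k * f (k + 1) (a + u * (x - a))

theorem dd_chain {f : ℕ → ℝ → ℝ} (h : Ch f) (a : ℝ) : Ch (dd f a) := by
  intro k x
  have hc1 := h.cont (k + 1)
  have hc2 := h.cont (k + 2)
  have hcont : Continuous (fun p : ℝ × ℝ => p.2 ^ (k + 1) * f (k + 2) (a + p.2 * (p.1 - a))) := by
    fun_prop
  obtain ⟨C, hC⟩ := ((isCompact_closedBall x 1).prod
    (isCompact_Icc (a := (0 : ℝ)) (b := 1))).exists_bound_of_continuousOn hcont.continuousOn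
  refine (intervalIntegral.hasDerivAt_integral_of_dominated_loc_of_deriv_le (μ := volume)
    (a := 0) (b := 1) (F := fun y u => u ^ k * f (k + 1) (a + u * (y - a)))
    (F' := fun y u => u ^ (k + 1) * f (k + 2) (a + u * (y - a)))
    (bound := fun _ => C) (s := Metric.closedBall x 1)
    (Metric.closedBall_mem_nhds x one_pos) ?_ ?_ ?_ ?_ ?_ ?_).2
  · refine Filter.Eventually.of_forall fun y => Continuous.aestronglyMeasurable ?_
    fun_prop
  · refine Continuous.intervalIntegrable ?_ _ _
    fun_prop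
  · refine Continuous.aestronglyMeasurable ?_
    fun_prop
  · refine Filter.Eventually.of_forall fun u hu y hy => ?_
    rw [Set.uIoc_of_le zero_le_one] at hu
    exact hC (y, u) ⟨hy, hu.1.le, hu.2⟩
  · exact continuous_const.intervalIntegrable _ _
  · refine Filter.Eventually.of_forall fun u _ y _ => ?_
    have h1 : HasDerivAt (fun y : ℝ => a + u * (y - a)) (u * 1) y :=
      (((hasDerivAt_id y).sub_const a).const_mul u).const_add a
    have h2 := ((h (k + 1) (a + u * (y - a))).comp y h1).const_mul (u ^ k)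
    refine h2.congr_deriv ?_
    ring

theorem dd_zero {f : ℕ → ℝ → ℝ} (h : Ch f) (a x : ℝ) :
    (x - a) * dd f a 0 x = f 0 x - f 0 a := by
  have hc := h.cont 1
  have h1 : ∀ u ∈ Set.uIcc (0 : ℝ) 1, HasDerivAt (fun u => f 0 (a + u * (x - a)))
      (f 1 (a + u * (x - a)) * (x - a)) u := by
    intro u _
    have h1 : HasDerivAt (fun u : ℝ => a + u * (x - a)) (1 * (x - a)) u :=
      ((hasDerivAt_id u).mul_const (x - a)).const_add a
    have h2 := (h 0 (a + u * (x - a))).comp u h1
    refine h2.congr_deriv ?_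
    ring
  have h2 := intervalIntegral.integral_eq_sub_of_hasDerivAt h1
    (Continuous.intervalIntegrable (by fun_prop) _ _)
  rw [intervalIntegral.integral_mul_const] at h2
  have h3 : a + 1 * (x - a) = x := by ring
  have h4 : a + 0 * (x - a) = a := by ring
  rw [h3, h4] at h2
  unfold dd
  simp only [pow_zero, one_mul, zero_add]
  rw [mul_comm]
  exact h2

theorem dd_succ {f : ℕ → ℝ → ℝ} (h : Ch f) (a x : ℝ) (k : ℕ) :
    (x - a) * dd f a (k + 1) x + (k + 1) * dd f a k x = f (k + 1) x := by
  have hc1 := h.cont (k + 1)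
  have hc2 := h.cont (k + 2)
  have h1 : ∀ u ∈ Set.uIcc (0 : ℝ) 1, HasDerivAt (fun u => u ^ (k + 1) * f (k + 1) (a + u * (x - a)))
      ((k + 1) * (u ^ k * f (k + 1) (a + u * (x - a))) +
        (x - a) * (u ^ (k + 1) * f (k + 2) (a + u * (x - a)))) u := by
    intro u _
    have h1 : HasDerivAt (fun u : ℝ => a + u * (x - a)) (1 * (x - a)) u :=
      ((hasDerivAt_id u).mul_const (x - a)).const_add a
    have h2 := (hasDerivAt_pow (k + 1) u).mul ((h (k + 1) (a + u * (x - a))).comp u h1)
    refine h2.congr_deriv ?_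
    simp only [Function.comp, Nat.add_sub_cancel]
    push_cast
    ring
  have h2 := intervalIntegral.integral_eq_sub_of_hasDerivAt h1
    (Continuous.intervalIntegrable (by fun_prop) _ _)
  rw [intervalIntegral.integral_add (Continuous.intervalIntegrable (by fun_prop) _ _)
    (Continuous.intervalIntegrable (by fun_prop) _ _), intervalIntegral.integral_const_mul,
    intervalIntegral.integral_const_mul] at h2
  have h3 : a + 1 * (x - a) = x := by ring
  rw [h3] at h2
  simp only [one_pow, one_mul, ne_eq, Nat.add_eq_zero_iff, one_ne_zero, and_false,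
    not_false_eq_true, zero_pow, zero_mul, sub_zero] at h2
  unfold dd
  rw [add_comm]
  exact h2

theorem dd_self {f : ℕ → ℝ → ℝ} (h : Ch f) (a : ℝ) (k : ℕ) :
    dd f a k a = f (k + 1) a / (k + 1) := by
  have h1 := dd_succ h a a k
  rw [sub_self, zero_mul, zero_add] at h1
  rw [← h1]
  field_simp

theorem dd_bound {f : ℕ → ℝ → ℝ} (_h : Ch f) {a X M : ℝ} (N : ℕ) (ha0 : 0 ≤ a) (haX : a ≤ X)
    (hM : ∀ x, 0 ≤ x → x ≤ X → |f (N + 1) x| ≤ M) {x : ℝ} (hx0 : 0 ≤ x) (hxX : x ≤ X) :
    |dd f a N x| ≤ M / (N + 1) := by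
  unfold dd
  have h1 : ‖∫ u in (0 : ℝ)..1, u ^ N * f (N + 1) (a + u * (x - a))‖ ≤
      ∫ u in (0 : ℝ)..1, u ^ N * M := by
    refine intervalIntegral.norm_integral_le_of_norm_le zero_le_one ?_
      (Continuous.intervalIntegrable (by fun_prop) _ _)
    refine Filter.Eventually.of_forall fun u hu => ?_
    rw [Real.norm_eq_abs, abs_mul, abs_of_nonneg (pow_nonneg hu.1.le _)]
    refine mul_le_mul_of_nonneg_left (hM _ ?_ ?_) (pow_nonneg hu.1.le _)
    · have h2 : a + u * (x - a) = (1 - u) * a + u * x := by ring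
      rw [h2]
      have := hu.1
      have := hu.2
      exact add_nonneg (mul_nonneg (by linarith) ha0) (mul_nonneg (by linarith) hx0)
    · have h2 : a + u * (x - a) = (1 - u) * a + u * x := by ring
      rw [h2]
      have h3 := hu.1
      have h4 := hu.2
      have h5 : (1 - u) * a ≤ (1 - u) * X := mul_le_mul_of_nonneg_left haX (by linarith)
      have h6 : u * x ≤ u * X := mul_le_mul_of_nonneg_left hxX h3.le
      linarith
  rw [Real.norm_eq_abs] at h1
  refine h1.trans (le_of_eq ?_)
  rw [intervalIntegral.integral_mul_const, integral_pow]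
  simp
  ring

theorem abs_le_of_mul {d y B : ℝ} (hd : 1 ≤ |d|) (h : |d * y| ≤ B) : |y| ≤ B := by
  rw [abs_mul] at h
  have := mul_le_mul_of_nonneg_right hd (abs_nonneg y)
  linarith

theorem main (S t : ℕ) (X : ℝ) (hX : (S : ℝ) ≤ X) : ∀ (N : ℕ) (f : ℕ → ℝ → ℝ) (m : ℕ → ℕ)
    (ε M : ℝ), 0 ≤ ε → Ch f → (∀ s, m s ≤ t) → ∑ s ∈ range S, m s = N →
    (∀ s < S, ∀ k < m s, |f k s| ≤ ε * k.factorial) →
    (∀ x, 0 ≤ x → x ≤ X → |f N x| ≤ M) →
    ∀ x, 0 ≤ x → x ≤ X → |f 0 x| ≤ M * X ^ N / N.factorial +
      ε * ∑ j ∈ range N, (((t : ℝ) + 1) * X) ^ j := by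
  intro N
  induction N with
  | zero =>
    intro f m ε M _ _ _ _ _ hM x hx0 hxX
    simpa using hM x hx0 hxX
  | succ N ih =>
    intro f m ε M hε hf hmt hsum hdat hM x hx0 hxX
    have hX0 : 0 ≤ X := hx0.trans hxX
    obtain ⟨s0, hs0, hm0⟩ : ∃ s ∈ range S, m s ≠ 0 := by
      by_contra hcon
      push Not at hcon
      rw [Finset.sum_eq_zero hcon] at hsum
      omega
    have hs0S : s0 < S := mem_range.1 hs0
    have ha0 : (0 : ℝ) ≤ s0 := Nat.cast_nonneg _
    have haX : (s0 : ℝ) ≤ X := by
      have : (s0 : ℝ) ≤ S := by exact_mod_cast hs0S.le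
      linarith
    have hF0 : |f 0 s0| ≤ ε := by
      have := hdat s0 hs0S 0 (by omega)
      simpa using this
    have hoff : ∀ s < S, s ≠ s0 → ∀ k < m s,
        |dd f s0 k s| ≤ (k + 2) * ε * k.factorial := by
      intro s hs hne k
      have hd : 1 ≤ |(s : ℝ) - s0| := by
        have h1 : (s : ℤ) - s0 ≠ 0 := by omega
        have h2 := Int.one_le_abs h1
        have h3 : ((1 : ℤ) : ℝ) ≤ ((|(s : ℤ) - s0| : ℤ) : ℝ) := by exact_mod_cast h2
        simpa using h3
      induction k with
      | zero =>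
        intro hk
        refine abs_le_of_mul hd ?_
        rw [dd_zero hf]
        have h1 := hdat s hs 0 hk
        simp only [Nat.factorial_zero, Nat.cast_one, mul_one] at h1
        have h2 := abs_sub (f 0 s) (f 0 s0)
        simp only [Nat.factorial_zero, Nat.cast_one, mul_one, Nat.cast_zero, zero_add]
        linarith
      | succ k ihk =>
        intro hk
        refine abs_le_of_mul hd ?_
        have h1 := dd_succ hf (s0 : ℝ) s k
        have h2 : ((s : ℝ) - s0) * dd f s0 (k + 1) s = f (k + 1) s - (k + 1) * dd f s0 k s := by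
          linarith
        rw [h2]
        have h3 := hdat s hs (k + 1) hk
        have h4 := ihk (by omega)
        have h5 := abs_sub (f (k + 1) s) ((k + 1) * dd f s0 k s)
        have h6 : |((k : ℝ) + 1) * dd f s0 k s| ≤ (k + 1) * ((k + 2) * ε * k.factorial) := by
          rw [abs_mul, abs_of_nonneg (by positivity)]
          exact mul_le_mul_of_nonneg_left h4 (by positivity)
        rw [Nat.factorial_succ] at h3 ⊢
        push_cast at h3 ⊢
        have h7 : ((k : ℝ) + 1 + 2) * ε * (((k : ℝ) + 1) * k.factorial) =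
            ε * (((k : ℝ) + 1) * k.factorial) + (k + 1) * ((k + 2) * ε * k.factorial) := by ring
        linarith
    have hIH := ih (dd f s0) (Function.update m s0 (m s0 - 1)) ((t + 1) * ε) (M / (N + 1))
      (by positivity) (dd_chain hf _) ?_ ?_ ?_ ?_ x hx0 hxX
    · have h1 : f 0 x = f 0 s0 + (x - s0) * dd f s0 0 x := by
        rw [dd_zero hf]
        ring
      have h2 : |x - (s0 : ℝ)| ≤ X := by
        rw [abs_le]
        constructor <;> linarith
      have h3 : |f 0 x| ≤ ε + X * (M / (N + 1) * X ^ N / N.factorial +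
          (t + 1) * ε * ∑ j ∈ range N, (((t : ℝ) + 1) * X) ^ j) := by
        rw [h1]
        refine (abs_add_le _ _).trans (add_le_add hF0 ?_)
        rw [abs_mul]
        exact mul_le_mul h2 hIH (abs_nonneg _) hX0
      refine h3.trans (le_of_eq ?_)
      have h4 : ∑ j ∈ range (N + 1), (((t : ℝ) + 1) * X) ^ j =
          (∑ j ∈ range N, (((t : ℝ) + 1) * X) ^ j) * (((t : ℝ) + 1) * X) + 1 := by
        rw [Finset.sum_range_succ', Finset.sum_mul]
        simp only [pow_succ, pow_zero]
      rw [h4, Nat.factorial_succ, pow_succ]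
      push_cast
      have h5 : X * (M / (N + 1) * X ^ N / N.factorial) =
          M * (X ^ N * X) / (((N : ℝ) + 1) * N.factorial) := by
        field_simp
      rw [mul_add, h5]
      ring
    · intro s
      by_cases h : s = s0
      · subst h
        rw [Function.update_self]
        have := hmt s
        omega
      · rw [Function.update_of_ne h]
        exact hmt s
    · have h1 := Finset.add_sum_erase (range S) m hs0
      have h2 := Finset.add_sum_erase (range S) (Function.update m s0 (m s0 - 1)) hs0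
      have h3 : ∑ x ∈ (range S).erase s0, Function.update m s0 (m s0 - 1) x =
          ∑ x ∈ (range S).erase s0, m x :=
        Finset.sum_congr rfl fun y hy => Function.update_of_ne (Finset.ne_of_mem_erase hy) _ _
      rw [Function.update_self, h3] at h2
      omega
    · intro s hs k hk
      by_cases h : s = s0
      · subst h
        rw [Function.update_self] at hk
        rw [dd_self hf, abs_div, abs_of_nonneg (by positivity : (0 : ℝ) ≤ (k : ℝ) + 1),
          div_le_iff₀ (by positivity)]
        have h1 := hdat s hs (k + 1) (by omega)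
        rw [Nat.factorial_succ] at h1
        push_cast at h1
        have h2 : 0 ≤ (t : ℝ) * (ε * (((k : ℝ) + 1) * k.factorial)) := by positivity
        calc |f (k + 1) s| ≤ ε * (((k : ℝ) + 1) * k.factorial) := h1
          _ ≤ ε * (((k : ℝ) + 1) * k.factorial) + (t : ℝ) * (ε * (((k : ℝ) + 1) * k.factorial)) := by
            linarith
          _ = (t + 1) * ε * k.factorial * (k + 1) := by ring
      · rw [Function.update_of_ne h] at hk
        refine (hoff s hs h k hk).trans ?_
        have h1 : (k : ℝ) + 2 ≤ t + 1 := by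
          have h2 := hmt s
          have h3 : k + 2 ≤ t + 1 := by omega
          exact_mod_cast h3
        gcongr
    · intro y hy0 hyX
      exact dd_bound hf N ha0 haX hM hy0 hyX

/-- Schwarz lemma with approximate multiple zeros. -/
theorem schw : SCHW := by
  intro f S t X ε M hS ht hX hε hf hdat hM x hx0 hxX
  have hS1 : (1 : ℝ) ≤ S := by exact_mod_cast hS
  have hX1 : 1 ≤ X := hS1.trans hX
  have h1 := main S t X hX (S * t) f (fun _ => t) ε M hε hf (fun _ => le_rfl)
    (by rw [Finset.sum_const, card_range, smul_eq_mul]) (fun s hs k hk => by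
      refine (hdat k hk s hs).trans ?_
      have : (1 : ℝ) ≤ k.factorial := by exact_mod_cast Nat.one_le_iff_ne_zero.2 (Nat.factorial_ne_zero k)
      nlinarith) hM x hx0 hxX
  refine h1.trans (add_le_add le_rfl ?_)
  rw [mul_assoc]
  refine mul_le_mul_of_nonneg_left ?_ hε
  have hb : (1 : ℝ) ≤ ((t : ℝ) + 2) * (X + 1) := by
    have : (0 : ℝ) ≤ t := Nat.cast_nonneg t
    nlinarith
  have h2 : ∀ j ∈ range (S * t), (((t : ℝ) + 1) * X) ^ j ≤ (((t : ℝ) + 2) * (X + 1)) ^ (S * t) := by
    intro j hj
    have ht0 : (0 : ℝ) ≤ t := Nat.cast_nonneg t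
    have h3 : ((t : ℝ) + 1) * X ≤ ((t : ℝ) + 2) * (X + 1) := by nlinarith
    have h4 : (0 : ℝ) ≤ ((t : ℝ) + 1) * X := by positivity
    exact (pow_le_pow_left₀ h4 h3 j).trans (pow_le_pow_right₀ hb (mem_range.1 hj).le)
  have h3 := Finset.sum_le_card_nsmul (range (S * t)) _ _ h2
  rw [card_range, nsmul_eq_mul] at h3
  refine h3.trans ?_
  have h4 : (0 : ℝ) ≤ (((t : ℝ) + 2) * (X + 1)) ^ (S * t) := by positivity
  exact mul_le_mul_of_nonneg_right (by linarith) h4

end Pool.Agent.N952.MX3
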