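import Pool.Agent.N988.ES.Stm
import Pool.Agent.N530.EP_LAW

/-!
# Project ES (helper988), part PV: the pivotal set is not empty with a probability bounded below
-/

set_option autoImplicit false

open MeasureTheory Set
open Pool.Agent.N988.EA Pool.Agent.N988.EC Pool.Agent.N988.EP Pool.Agent.N988.ES

namespace Pool.Agent.N952.ES

noncomputable section

open Pool.Agent.N530.EP (mp_halves meas_set meas_set2 prod_prod)

/-- The multiplier at the fixed point is larger than one. -/
theorem slope {b : ℕ} (hb : 2 ≤ b) {p : ℝ} (hp0 : 0 < p) (hp1 : p < 1)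
    (hfix : 1 - (1 - p ^ 2) ^ b = p) : 1 < 2 * b * p * (1 - p ^ 2) ^ (b - 1) := by
  obtain ⟨m, rfl⟩ : ∃ m, b = m + 1 := ⟨b - 1, by omega⟩
  have hm : (1 : ℝ) ≤ m := by exact_mod_cast (by omega : 1 ≤ m)
  have h1 : (1 - p ^ 2) ^ m * (1 + p) = 1 := by
    have h2 : (1 - p) * ((1 - p ^ 2) ^ m * (1 + p)) = (1 - p) * 1 := by
      have : (1 - p ^ 2) ^ (m + 1) = 1 - p := by linarith
      calc (1 - p) * ((1 - p ^ 2) ^ m * (1 + p)) = (1 - p ^ 2) ^ (m + 1) := by ring
        _ = (1 - p) * 1 := by rw [this]; ring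
    exact mul_left_cancel₀ (by linarith) h2
  have hp2 : 1 < (2 * m + 1) * p := by
    by_contra hcon
    push Not at hcon
    have h3 : 1 - m * p ^ 2 ≤ (1 - p ^ 2) ^ m := by
      have := one_add_mul_le_pow (a := -p ^ 2) (by nlinarith) m
      calc 1 - m * p ^ 2 = 1 + m * (-p ^ 2) := by ring
        _ ≤ (1 + -p ^ 2) ^ m := this
        _ = (1 - p ^ 2) ^ m := by ring
    have h4 : (1 - m * p ^ 2) * (1 + p) ≤ 1 :=
      (mul_le_mul_of_nonneg_right h3 (by linarith)).trans h1.le
    have h5 : 0 < p * (1 - m * p * (1 + p)) := by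
      apply mul_pos hp0
      have h6 : m * p ≤ 1 / 2 * (1 - p) := by linarith
      have h7 : m * p * (1 + p) ≤ 1 / 2 * (1 - p) * (1 + p) :=
        mul_le_mul_of_nonneg_right h6 (by linarith)
      nlinarith
    nlinarith
  have h8 : (1 - p ^ 2) ^ (m + 1 - 1) = 1 / (1 + p) := by
    rw [Nat.add_sub_cancel]
    field_simp
    linarith
  rw [h8]
  push_cast
  rw [mul_one_div, lt_div_iff₀ (by linarith)]
  nlinarith

theorem cross_iff {b n : ℕ} (hb : 1 ≤ b) (w : Edge b n → Bool) : cross w = 1 ↔ Y n w = 0 := by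
  unfold cross
  rw [(k_LOW b hb).1 n w]
  split_ifs with h
  · simp [h]
  · simp only [h, iff_false]
    norm_num

theorem cross_prob {b : ℕ} (hb : 1 ≤ b) {p : ℝ} (hp0 : 0 < p) (hp1 : p < 1)
    (hfix : 1 - (1 - p ^ 2) ^ b = p) (n : ℕ) :
    (iid (coin (1 - p)) b n).real {w | cross w = 1} = p := by
  simp only [cross_iff hb]
  obtain ⟨h0, h1⟩ := k_LAW b hb p hp0.le hp1.le
  induction n with
  | zero => exact h0
  | succ n ih => rw [(h1 n).1, ih, hfix]

/-- crossed, with a pivotal edge -/
def E (b n : ℕ) : Set (Edge b n → Bool) := {w | cross w = 1 ∧ (piv w).Nonempty}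

/-- crossed -/
def X (b n : ℕ) : Set (Edge b n → Bool) := {w | cross w = 1}

/-- both halves crossed, one of them with a pivotal edge -/
def A (b n : ℕ) : Set ((Edge b n → Bool) × (Edge b n → Bool)) :=
  (X b n ×ˢ X b n) \ ((X b n \ E b n) ×ˢ (X b n \ E b n))

/-- one of the halves is not crossed -/
def B (b n : ℕ) : Set ((Edge b n → Bool) × (Edge b n → Bool)) := (X b n ×ˢ X b n)ᶜ

theorem E_sub (b n : ℕ) : E b n ⊆ X b n := fun _ h => h.1

theorem disj (b n : ℕ) : Disjoint (A b n) (B b n) := by
  rw [Set.disjoint_left]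
  intro q h1 h2
  exact h2 h1.1

variable (ν : Measure Bool) [IsProbabilityMeasure ν]

theorem real_A (b n : ℕ) : ((iid ν b n).prod (iid ν b n)).real (A b n) =
    (iid ν b n).real (X b n) ^ 2 - ((iid ν b n).real (X b n) - (iid ν b n).real (E b n)) ^ 2 := by
  unfold A
  rw [measureReal_sdiff (prod_mono sdiff_le sdiff_le) (meas_set2 _), prod_prod, prod_prod,
    measureReal_sdiff (E_sub b n) (meas_set _)]
  ring

theorem real_B (b n : ℕ) : ((iid ν b n).prod (iid ν b n)).real (B b n) =
    1 - (iid ν b n).real (X b n) ^ 2 := by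
  unfold B
  rw [probReal_compl_eq_one_sub (meas_set2 _), prod_prod, sq]

/-- the halves -/
def hv {b n : ℕ} (w : Edge b (n + 1) → Bool) (i : Fin b) :
    (Edge b n → Bool) × (Edge b n → Bool) :=
  ((fun e => w (i, false, e) : Edge b n → Bool), (fun e => w (i, true, e) : Edge b n → Bool))

/-- The event of the branch `i`. -/
def F (b n : ℕ) (i : Fin b) : Set (Edge b (n + 1) → Bool) :=
  hv ⁻¹' (Set.pi univ fun j : Fin b => if j = i then A b n else B b n)

theorem F_prob (b n : ℕ) (i : Fin b) : (iid ν b (n + 1)).real (F b n i) =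
    ((iid ν b n).prod (iid ν b n)).real (A b n) *
      ((iid ν b n).prod (iid ν b n)).real (B b n) ^ (b - 1) := by
  have h1 := mp_halves ν k_CUR b n
  have hm : ∀ j : Fin b, MeasurableSet (if j = i then A b n else B b n) := fun j => by
    split_ifs <;> exact meas_set2 _
  have h2 : (iid ν b (n + 1)) (F b n i) = ∏ j : Fin b, ((iid ν b n).prod (iid ν b n))
      (if j = i then A b n else B b n) := by
    unfold F
    rw [← Measure.pi_pi]
    exact h1.measure_preimage (MeasurableSet.univ_pi hm).nullMeasurableSet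
  rw [measureReal_def, h2, ENNReal.toReal_prod,
    ← Finset.mul_prod_erase Finset.univ _ (Finset.mem_univ i), if_pos rfl]
  have h3 : ∀ j ∈ Finset.univ.erase i, (((iid ν b n).prod (iid ν b n))
      (if j = i then A b n else B b n)).toReal =
        ((iid ν b n).prod (iid ν b n)).real (B b n) := by
    intro j hj
    rw [if_neg (Finset.ne_of_mem_erase hj), measureReal_def]
  rw [Finset.prod_congr rfl h3, Finset.prod_const, Finset.card_erase_of_mem (Finset.mem_univ i),
    Finset.card_univ, Fintype.card_fin]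
  rfl

theorem F_disj (b n : ℕ) : Pairwise (Function.onFun Disjoint (F b n)) := by
  intro i j hij
  show Disjoint (F b n i) (F b n j)
  rw [Set.disjoint_left]
  intro w h1 h2
  have h3 : hv w i ∈ (if i = i then A b n else B b n) := h1 i (mem_univ i)
  have h4 : hv w i ∈ (if i = j then A b n else B b n) := h2 i (mem_univ i)
  rw [if_pos rfl] at h3
  rw [if_neg hij] at h4
  exact Set.disjoint_left.1 (disj b n) h3 h4

theorem F_sub (hP : S_PIV) {b : ℕ} (hb : 1 ≤ b) (n : ℕ) (i : Fin b) :
    F b n i ⊆ E b (n + 1) := by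
  obtain ⟨-, -, hc, hp⟩ := hP b hb
  intro w hw
  have h1 := hw i (mem_univ i)
  simp only [if_true] at h1
  have h2 : ∀ j, j ≠ i → ¬ (cross (sub w j false) = 1 ∧ cross (sub w j true) = 1) := by
    intro j hj
    have h3 := hw j (mem_univ j)
    simp only [if_neg hj] at h3
    intro h4
    exact h3 ⟨h4.1, h4.2⟩
  obtain ⟨⟨h5, h6⟩, h7⟩ := h1
  have h5' : cross (sub w i false) = 1 := h5
  have h6' : cross (sub w i true) = 1 := h6
  refine ⟨(hc n w).2 ⟨i, h5', h6'⟩, ?_⟩
  by_cases h8 : (piv (sub w i false)).Nonempty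
  · obtain ⟨e, he⟩ := h8
    exact ⟨(i, false, e), (hp n w i false e).2 ⟨he, h6', h2⟩⟩
  · by_cases h9 : (piv (sub w i true)).Nonempty
    · obtain ⟨e, he⟩ := h9
      exact ⟨(i, true, e), (hp n w i true e).2 ⟨he, h5', h2⟩⟩
    · exact absurd ⟨⟨h5, fun h => h8 h.2⟩, ⟨h6, fun h => h9 h.2⟩⟩ h7

theorem E_step (hP : S_PIV) {b : ℕ} (hb : 1 ≤ b) (n : ℕ) :
    b * (((iid ν b n).real (X b n) ^ 2 - ((iid ν b n).real (X b n) -
      (iid ν b n).real (E b n)) ^ 2) * (1 - (iid ν b n).real (X b n) ^ 2) ^ (b - 1)) ≤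
        (iid ν b (n + 1)).real (E b (n + 1)) := by
  have h1 : (iid ν b (n + 1)).real (⋃ i, F b n i) ≤ (iid ν b (n + 1)).real (E b (n + 1)) :=
    measureReal_mono (iUnion_subset fun i => F_sub hP hb n i)
  rw [measureReal_iUnion_fintype (F_disj b n) (fun i => meas_set _)] at h1
  simp only [F_prob, real_A, real_B] at h1
  rw [Finset.sum_const, Finset.card_univ, Fintype.card_fin, nsmul_eq_mul] at h1
  exact h1

/-- Q6: the pivotal set is not empty with a probability bounded below. -/
theorem t_PV (h : S_PIV) : S_PV := by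
  intro b hb p hp0 hp1 hfix
  have hb1 : 1 ≤ b := by omega
  have : IsProbabilityMeasure (coin (1 - p)) := coin_prob (by linarith) (by linarith)
  have hX : ∀ n, (iid (coin (1 - p)) b n).real (X b n) = p := fun n =>
    cross_prob hb1 hp0 hp1 hfix n
  have hl := slope hb hp0 hp1 hfix
  set l : ℝ := 2 * b * p * (1 - p ^ 2) ^ (b - 1) with hldef
  have hc1 : 0 < 2 * p * (1 - 1 / l) := by
    have : 1 / l < 1 := by
      rw [div_lt_one (by linarith)]
      exact hl
    have h2 : 0 < 1 - 1 / l := by linarith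
    positivity
  refine ⟨min p (2 * p * (1 - 1 / l)), lt_min hp0 hc1, fun n => ?_⟩
  set c : ℝ := min p (2 * p * (1 - 1 / l)) with hcdef
  have hc0 : 0 < c := lt_min hp0 hc1
  have hcp : c ≤ p := min_le_left _ _
  have hcl : c ≤ 2 * p * (1 - 1 / l) := min_le_right _ _
  have hfc : c ≤ l * c * (1 - c / (2 * p)) := by
    have h1 : 1 / l ≤ 1 - c / (2 * p) := by
      have h2 : c / (2 * p) ≤ 1 - 1 / l := by
        rw [div_le_iff₀ (by linarith)]
        linarith
      linarith
    have h3 : l * c * (1 / l) ≤ l * c * (1 - c / (2 * p)) :=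
      mul_le_mul_of_nonneg_left h1 (by positivity)
    have h4 : l * c * (1 / l) = c := by
      field_simp
    linarith
  have hmain : ∀ n, c ≤ (iid (coin (1 - p)) b n).real (E b n) := by
    intro n
    induction n with
    | zero =>
      have h1 : X b 0 ⊆ E b 0 := fun w hw => ⟨hw, ⟨(), (h b hb1).1 w ()⟩⟩
      have h2 := measureReal_mono h1 (μ := iid (coin (1 - p)) b 0)
      rw [hX 0] at h2
      exact hcp.trans h2
    | succ n ih =>
      have h1 := E_step (coin (1 - p)) h hb1 n
      rw [hX n] at h1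
      have h2 : (iid (coin (1 - p)) b n).real (E b n) ≤ p :=
        (measureReal_mono (E_sub b n)).trans (hX n).le
      set α := (iid (coin (1 - p)) b n).real (E b n)
      refine le_trans ?_ h1
      have h3 : b * ((p ^ 2 - (p - α) ^ 2) * (1 - p ^ 2) ^ (b - 1)) =
          l * α * (1 - α / (2 * p)) := by
        rw [hldef]
        field_simp
        ring
      rw [h3]
      refine hfc.trans ?_
      have h4 : l * α * (1 - α / (2 * p)) - l * c * (1 - c / (2 * p)) =
          l * ((α - c) * (1 - (α + c) / (2 * p))) := by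
        field_simp
        ring
      have h5 : 0 ≤ 1 - (α + c) / (2 * p) := by
        have : (α + c) / (2 * p) ≤ 1 := by
          rw [div_le_one (by linarith)]
          linarith
        linarith
      have h6 : 0 ≤ l * ((α - c) * (1 - (α + c) / (2 * p))) := by
        apply mul_nonneg (by linarith)
        exact mul_nonneg (by linarith) h5
      linarith
  refine (hmain n).trans (measureReal_mono fun w hw => ?_)
  exact hw.2

end

end Pool.Agent.N952.ES
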