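import Pool.Agent.N404.EX.Stm
import Pool.Agent.H249R2.PM.Basic

/-! Petersen's theorem in the form of an involution (helper952 for the project EX of helper404). -/

set_option autoImplicit false

namespace Pool.Agent.N952.EX_PET

open Finset Classical Pool.Agent.N404.EX Pool.Agent.H249R2.PM

/-- adjacency as a number -/
noncomputable def ad {V : Type} (G : SimpleGraph V) (u v : V) : ℕ := if G.Adj u v then 1 else 0

theorem ad_symm {V : Type} (G : SimpleGraph V) (u v : V) : ad G u v = ad G v u := by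
  unfold ad
  simp only [G.adj_comm]

theorem ad_self {V : Type} (G : SimpleGraph V) (u : V) : ad G u u = 0 := by
  unfold ad
  simp

theorem even_in {V : Type} (G : SimpleGraph V) (S : Finset V) :
    Even (∑ a ∈ S, ∑ b ∈ S, ad G a b) := by
  induction S using Finset.induction_on with
  | empty => simp
  | insert v S hv ih =>
    rw [sum_insert hv, sum_insert hv, ad_self, zero_add]
    have h1 : ∑ a ∈ S, ∑ b ∈ insert v S, ad G a b =
        ∑ a ∈ S, ad G v a + ∑ a ∈ S, ∑ b ∈ S, ad G a b := by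
      rw [← sum_add_distrib]
      refine sum_congr rfl fun a _ => ?_
      rw [sum_insert hv, ad_symm G a v]
    rw [h1, ← add_assoc]
    exact Even.add ⟨_, rfl⟩ ih

theorem deg_eq {V : Type} [Fintype V] (G : SimpleGraph V) (v : V) :
    ∑ b, ad G v b = G.degree v := by
  unfold ad
  rw [← SimpleGraph.card_neighborFinset_eq_degree, card_eq_sum_ones, sum_ite, sum_const_zero,
    add_zero]
  refine sum_congr ?_ fun _ _ => rfl
  ext b
  simp

theorem bd_eq {V : Type} [Fintype V] (G : SimpleGraph V) (S : Finset V) :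
    bd G S = ∑ a ∈ S, ∑ b ∈ Sᶜ, ad G a b := rfl

theorem parity {V : Type} [Fintype V] (G : SimpleGraph V) (hd : ∀ v, G.degree v = 3)
    (S : Finset V) : 3 * S.card = ∑ a ∈ S, ∑ b ∈ S, ad G a b + bd G S := by
  rw [bd_eq, ← sum_add_distrib]
  have h1 : ∀ a ∈ S, ∑ b ∈ S, ad G a b + ∑ b ∈ Sᶜ, ad G a b = 3 := by
    intro a _
    rw [sum_add_sum_compl, deg_eq, hd]
  rw [sum_congr rfl h1, sum_const, smul_eq_mul, mul_comm]

theorem bd_single {V : Type} [Fintype V] (G : SimpleGraph V) (hd : ∀ v, G.degree v = 3) (v : V) :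
    bd G {v} = 3 := by
  have h := parity G hd {v}
  rw [sum_singleton, sum_singleton, ad_self, card_singleton] at h
  omega

/-- the weights -/
noncomputable def wt {V : Type} (G : SimpleGraph V) (e : V × V) : ℝ := (ad G e.1 e.2 : ℝ) / 6

theorem cut_wt {V : Type} [Fintype V] (G : SimpleGraph V) (S : Finset V) :
    cut Prod.fst Prod.snd (wt G) S = (bd G S : ℝ) / 3 := by
  rw [cut_eq_ite, Fintype.sum_prod_type]
  have h1 : ∀ a : V, (∑ b : V, if Cr (Prod.fst : V × V → V) Prod.snd S (a, b) then wt G (a, b)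
      else 0) = if a ∈ S then ∑ b ∈ Sᶜ, (ad G a b : ℝ) / 6 else ∑ b ∈ S, (ad G a b : ℝ) / 6 := by
    intro a
    by_cases ha : a ∈ S
    · rw [if_pos ha, ← sum_filter]
      refine sum_congr ?_ fun _ _ => rfl
      ext b
      simp [Cr, ha]
    · rw [if_neg ha, ← sum_filter]
      refine sum_congr ?_ fun _ _ => rfl
      ext b
      simp [Cr, ha]
  rw [sum_congr rfl fun a _ => h1 a, sum_ite]
  have e1 : (univ.filter fun a : V => a ∈ S) = S := by
    ext
    simp
  have e2 : (univ.filter fun a : V => ¬ a ∈ S) = Sᶜ := by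
    ext
    simp
  rw [e1, e2, sum_comm (s := Sᶜ) (t := S)]
  have h2 : ∑ b ∈ S, ∑ a ∈ Sᶜ, (ad G a b : ℝ) / 6 = ∑ a ∈ S, ∑ b ∈ Sᶜ, (ad G a b : ℝ) / 6 := by
    refine sum_congr rfl fun b _ => sum_congr rfl fun a _ => ?_
    rw [ad_symm]
  rw [h2, bd_eq]
  push_cast
  simp only [← sum_div]
  ring

theorem fr {V : Type} [Fintype V] (G : SimpleGraph V) (hd : ∀ v, G.degree v = 3)
    (hb : Bridgeless G) : Fr (Prod.fst : V × V → V) Prod.snd (wt G) := by
  refine ⟨fun e => ?_, fun v => ?_, fun S hS => ?_⟩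
  · unfold wt
    positivity
  · rw [cut_wt, bd_single G hd]
    norm_num
  · rw [cut_wt]
    have h1 := parity G hd S
    have h2 := even_in G S
    have h3 : Odd (bd G S) := by
      have h4 : Odd (∑ a ∈ S, ∑ b ∈ S, ad G a b + bd G S) := by
        rw [← h1]
        exact Odd.mul (by decide) hS
      rcases Nat.even_or_odd (bd G S) with h5 | h5
      · exact absurd (h2.add h5) (Nat.not_even_iff_odd.2 h4)
      · exact h5
    have hne : S.Nonempty := card_pos.1 hS.pos
    have h5 : 3 ≤ bd G S := by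
      by_cases hu : S = univ
      · exfalso
        rw [hu, bd_eq, compl_univ] at h3
        simp at h3
      · have h6 : 2 ≤ bd G S := hb S hne hu
        obtain ⟨k, hk⟩ := h3
        omega
    have h7 : (3 : ℝ) ≤ bd G S := by exact_mod_cast h5
    linarith

theorem main : S_PET := by
  intro V _ G _ hd hb
  obtain ⟨M, hM⟩ := (SimpleGraph.tutte (G := supG Prod.fst Prod.snd (wt G))).2
    (no_violator (fr G hd hb))
  have h1 : ∀ v, ∃ w, M.Adj v w ∧ ∀ y, M.Adj v y → y = w := fun v => hM.1 (hM.2 v)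
  choose f hf hu using h1
  refine ⟨f, fun v => ?_, fun v => ?_⟩
  · obtain ⟨-, e, he, h2⟩ := M.adj_sub (hf v)
    unfold wt ad at he
    by_cases h3 : G.Adj e.1 e.2
    · rcases h2 with ⟨h4, h5⟩ | ⟨h4, h5⟩
      · rw [h4, h5] at h3
        exact h3
      · rw [h4, h5] at h3
        exact h3.symm
    · rw [if_neg h3] at he
      norm_num at he
  · exact (hu (f v) v (hf v).symm).symm

end Pool.Agent.N952.EX_PET
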