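import Pool.Agent.N979.P1.Stm

/-!
P1/ARC: bounds for the arcus tangens (helper952 for the project P1 of helper979).
-/

set_option autoImplicit false

namespace Pool.Agent.N952.P1_ARC

theorem lower (x : ℝ) (hx : 0 ≤ x) : x - x ^ 3 / 3 + x ^ 5 / 5 - x ^ 7 / 7 ≤ Real.arctan x := by
  have hd : ∀ y : ℝ, HasDerivAt
      (fun y : ℝ => Real.arctan y - (y - y ^ 3 / 3 + y ^ 5 / 5 - y ^ 7 / 7))
      (1 / (1 + y ^ 2) - (1 - y ^ 2 + y ^ 4 - y ^ 6)) y := by
    intro y
    have h1 := Real.hasDerivAt_arctan y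
    have h3 : HasDerivAt (fun y : ℝ => y ^ 3 / 3) (y ^ 2) y := by
      refine ((hasDerivAt_pow 3 y).div_const 3).congr_deriv ?_
      push_cast; ring
    have h5 : HasDerivAt (fun y : ℝ => y ^ 5 / 5) (y ^ 4) y := by
      refine ((hasDerivAt_pow 5 y).div_const 5).congr_deriv ?_
      push_cast; ring
    have h7 : HasDerivAt (fun y : ℝ => y ^ 7 / 7) (y ^ 6) y := by
      refine ((hasDerivAt_pow 7 y).div_const 7).congr_deriv ?_
      push_cast; ring
    exact h1.sub ((((hasDerivAt_id' y).sub h3).add h5).sub h7)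
  have hm : Monotone (fun y : ℝ => Real.arctan y - (y - y ^ 3 / 3 + y ^ 5 / 5 - y ^ 7 / 7)) := by
    refine monotone_of_deriv_nonneg (fun y => (hd y).differentiableAt) fun y => ?_
    rw [(hd y).deriv]
    have h0 : 0 < 1 + y ^ 2 := by positivity
    have e : 1 / (1 + y ^ 2) - (1 - y ^ 2 + y ^ 4 - y ^ 6) = y ^ 8 / (1 + y ^ 2) := by
      field_simp
      ring
    rw [e]
    positivity
  have h := hm hx
  simp only [Real.arctan_zero] at h
  norm_num at h
  linarith

theorem upper (x : ℝ) (hx : 0 ≤ x) : Real.arctan x ≤ x - x ^ 3 / 3 + x ^ 5 / 5 := by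
  have hd : ∀ y : ℝ, HasDerivAt
      (fun y : ℝ => (y - y ^ 3 / 3 + y ^ 5 / 5) - Real.arctan y)
      ((1 - y ^ 2 + y ^ 4) - 1 / (1 + y ^ 2)) y := by
    intro y
    have h1 := Real.hasDerivAt_arctan y
    have h3 : HasDerivAt (fun y : ℝ => y ^ 3 / 3) (y ^ 2) y := by
      refine ((hasDerivAt_pow 3 y).div_const 3).congr_deriv ?_
      push_cast; ring
    have h5 : HasDerivAt (fun y : ℝ => y ^ 5 / 5) (y ^ 4) y := by
      refine ((hasDerivAt_pow 5 y).div_const 5).congr_deriv ?_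
      push_cast; ring
    exact (((hasDerivAt_id' y).sub h3).add h5).sub h1
  have hm : Monotone (fun y : ℝ => (y - y ^ 3 / 3 + y ^ 5 / 5) - Real.arctan y) := by
    refine monotone_of_deriv_nonneg (fun y => (hd y).differentiableAt) fun y => ?_
    rw [(hd y).deriv]
    have h0 : 0 < 1 + y ^ 2 := by positivity
    have e : (1 - y ^ 2 + y ^ 4) - 1 / (1 + y ^ 2) = y ^ 6 / (1 + y ^ 2) := by
      field_simp
      ring
    rw [e]
    positivity
  have h := hm hx
  simp only [Real.arctan_zero] at h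
  norm_num at h
  linarith

theorem main : Pool.Agent.N979.P1.S_ARC := fun x h0 _ => ⟨lower x h0, upper x h0⟩

end Pool.Agent.N952.P1_ARC
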